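import Pool.Agent.Lib.MP_1a91b9_nuT.BaseK
import Pool.Agent.Lib.MP_1a91b9_nuT.Mult.Add2

/-!
# MP_1a91b9_nt (QuarticDensity): the field `ℚ(i)` and its data of complex multiplication

`K4 = ℚ(i)`, `iO` the imaginary unit in `𝓞 K4`, `lam = 1 + iO`. The instance `cd4` is the class
`CD` of `MP_1a91b9_nuT` for the curve `y² = x³ - x`.
-/

set_option autoImplicit false

namespace Pool.Agent.Lib.MP_1a91b9_ntQ

open NumberField Polynomial Pool.Agent.Lib.MP_1a91b9_nuT

noncomputable section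

instance neZero4 : NeZero ((4 : ℕ) : ℚ) := ⟨by norm_num⟩

/-- The field `ℚ(i)`. -/
def K4 : Type := CyclotomicField 4 ℚ

instance fieldK4 : Field K4 := inferInstanceAs (Field (CyclotomicField 4 ℚ))
instance charZeroK4 : CharZero K4 := inferInstanceAs (CharZero (CyclotomicField 4 ℚ))
instance cycK4 : IsCyclotomicExtension {4} ℚ K4 := by
  have h : ∀ (i : Algebra ℚ (CyclotomicField 4 ℚ)),
      @IsCyclotomicExtension {4} ℚ (CyclotomicField 4 ℚ) _ _ i := by
    intro i
    have e : i = CyclotomicField.instAlgebra 4 ℚ ℚ := Subsingleton.elim _ _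
    rw [e]
    exact CyclotomicField.isCyclotomicExtension 4 ℚ
  exact h _
instance numberFieldK4 : NumberField K4 := IsCyclotomicExtension.numberField {4} ℚ K4

/-- The imaginary unit in `K4`. -/
def iK : K4 := IsCyclotomicExtension.zeta 4 ℚ K4

theorem iK_spec : IsPrimitiveRoot iK 4 := IsCyclotomicExtension.zeta_spec 4 ℚ K4

theorem iK_sq : iK ^ 2 = -1 := by
  have h : iK ^ 4 = 1 := iK_spec.pow_eq_one
  have h2 : iK ^ 2 ≠ 1 := by
    intro h
    have := iK_spec.dvd_of_pow_eq_one 2 h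
    omega
  have h3 : (iK ^ 2 - 1) * (iK ^ 2 + 1) = 0 := by linear_combination h
  rcases mul_eq_zero.1 h3 with h4 | h4
  · exact absurd (sub_eq_zero.1 h4) h2
  · exact eq_neg_of_add_eq_zero_left h4

theorem I_prim : IsPrimitiveRoot Complex.I 4 := by
  rw [IsPrimitiveRoot.iff_def]
  refine ⟨Complex.I_pow_four, fun l h => ?_⟩
  have h1 : Complex.I ^ l = Complex.I ^ (l % 4) := by
    conv_lhs => rw [← Nat.div_add_mod l 4, pow_add, pow_mul, Complex.I_pow_four, one_pow, one_mul]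
  rw [h1] at h
  have h4 : l % 4 < 4 := Nat.mod_lt _ (by norm_num)
  interval_cases h5 : l % 4
  · exact Nat.dvd_of_mod_eq_zero h5
  · rw [pow_one] at h
    have := congrArg Complex.im h
    simp at this
  · rw [Complex.I_sq] at h
    have := congrArg Complex.re h
    norm_num at this
  · rw [Complex.I_pow_three] at h
    have := congrArg Complex.im h
    simp at this

/-- The embedding of `K4` in `ℂ` which sends `iK` to `I`. -/
def emb4 : K4 →ₐ[ℚ] ℂ :=
  (iK_spec.embeddingsEquivPrimitiveRoots ℂ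
    (Polynomial.cyclotomic.irreducible_rat (by norm_num))).symm
    ⟨Complex.I, (mem_primitiveRoots (by norm_num)).2 I_prim⟩

theorem emb4_iK : emb4 iK = Complex.I := by
  have h := iK_spec.embeddingsEquivPrimitiveRoots_apply_coe ℂ
    (Polynomial.cyclotomic.irreducible_rat (by norm_num)) emb4
  rw [← h, emb4, Equiv.apply_symm_apply]

/-- The imaginary unit in `𝓞 K4`. -/
def iO : 𝓞 K4 := ⟨iK, iK_spec.isIntegral (by norm_num)⟩

theorem coe_iO : (iO : K4) = iK := rfl

theorem iO_sq : iO ^ 2 = -1 := by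
  apply RingOfIntegers.ext
  simp only [map_pow, map_neg, map_one]
  exact iK_sq

/-- The elements `m + n i`. -/
def Zi : Subalgebra ℤ K4 where
  carrier := {x | ∃ m n : ℤ, x = m + n * iK}
  mul_mem' := by
    rintro _ _ ⟨a, b, rfl⟩ ⟨c, d, rfl⟩
    refine ⟨a * c - b * d, a * d + b * c, ?_⟩
    push_cast
    linear_combination (b : K4) * d * iK_sq
  add_mem' := by
    rintro _ _ ⟨a, b, rfl⟩ ⟨c, d, rfl⟩
    refine ⟨a + c, b + d, ?_⟩
    push_cast
    ring
  algebraMap_mem' := by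
    intro n
    exact ⟨n, 0, by simp⟩

theorem exists_coords4K (a : 𝓞 K4) : ∃ m n : ℤ, (a : K4) = m + n * iK := by
  have h := IsCyclotomicExtension.Rat.isIntegralClosure_adjoin_singleton iK_spec
  have h1 : IsIntegral ℤ (a : K4) := a.2
  obtain ⟨y, hy⟩ := h.isIntegral_iff.1 h1
  have h2 : (y : K4) ∈ Zi := by
    have h3 : Algebra.adjoin ℤ ({iK} : Set K4) ≤ Zi := by
      rw [Algebra.adjoin_le_iff]
      rintro _ rfl
      exact ⟨0, 1, by simp⟩
    exact h3 y.2
  have h4 : (y : K4) = a := hy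
  rw [h4] at h2
  exact h2

theorem exists_coords4 (a : 𝓞 K4) : ∃ m n : ℤ, a = (m : 𝓞 K4) + (n : 𝓞 K4) * iO := by
  obtain ⟨m, n, h⟩ := exists_coords4K a
  refine ⟨m, n, RingOfIntegers.ext ?_⟩
  rw [h]
  simp [coe_iO]

instance pidK4 : IsPrincipalIdealRing (𝓞 K4) := by
  let f : GaussianInt →+* 𝓞 K4 := Zsqrtd.lift ⟨iO, by
    have h := iO_sq
    rw [pow_two] at h
    rw [h]
    push_cast
    rfl⟩
  refine IsPrincipalIdealRing.of_surjective f (fun a => ?_)
  obtain ⟨m, n, h⟩ := exists_coords4 a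
  refine ⟨⟨m, n⟩, ?_⟩
  rw [h]
  simp [f, Zsqrtd.lift]

theorem im4 : (emb4 (iO : K4)).im ≠ 0 := by
  rw [coe_iO, emb4_iK]
  simp

/-- The lattice `ℤ[i]` as a period pair. -/
abbrev PP4 : PeriodPair := mkPP (emb4 (iO : K4)) im4

theorem mem_PP4 {x : ℂ} : x ∈ PP4.lattice ↔ ∃ m n : ℤ, (m : ℂ) + n * Complex.I = x := by
  have h : PP4.ω₂ = Complex.I := emb4_iK
  have h1 : PP4.ω₁ = 1 := rfl
  rw [PeriodPair.mem_lattice]
  constructor
  · rintro ⟨m, n, e⟩
    refine ⟨m, n, ?_⟩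
    rw [← e, h, h1, mul_one]
  · rintro ⟨m, n, e⟩
    refine ⟨m, n, ?_⟩
    rw [← e, h, h1, mul_one]

theorem I_mul_mem {x : ℂ} : Complex.I * x ∈ PP4.lattice ↔ x ∈ PP4.lattice := by
  have key : ∀ y : ℂ, y ∈ PP4.lattice → Complex.I * y ∈ PP4.lattice := by
    intro y hy
    obtain ⟨m, n, rfl⟩ := mem_PP4.1 hy
    refine mem_PP4.2 ⟨-n, m, ?_⟩
    push_cast
    linear_combination -(n : ℂ) * Complex.I_sq
  constructor
  · intro h
    have h1 := key _ (key _ (key _ h))
    have h2 : Complex.I * (Complex.I * (Complex.I * (Complex.I * x))) = x := by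
      linear_combination x * Complex.I_pow_four
    rwa [h2] at h1
  · exact key x

/-- The multiplication by `i` as a permutation of the lattice. -/
def iE : PP4.lattice ≃ PP4.lattice where
  toFun l := ⟨Complex.I * l, I_mul_mem.2 l.2⟩
  invFun l := ⟨-Complex.I * l, by
    rw [neg_mul]
    exact neg_mem (I_mul_mem.2 l.2)⟩
  left_inv l := by
    ext
    show -Complex.I * (Complex.I * (l : ℂ)) = l
    linear_combination -(l : ℂ) * Complex.I_sq
  right_inv l := by
    ext
    show Complex.I * (-Complex.I * (l : ℂ)) = l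
    linear_combination -(l : ℂ) * Complex.I_sq

theorem coe_iE (l : PP4.lattice) : ((iE l : PP4.lattice) : ℂ) = Complex.I * l := rfl

theorem PP4_I (z : ℂ) : PP4.weierstrassP (Complex.I * z) = -PP4.weierstrassP z := by
  simp only [PeriodPair.weierstrassP]
  rw [← iE.tsum_eq, ← tsum_neg]
  congr with l
  have h : (Complex.I ^ 2)⁻¹ = -1 := by rw [Complex.I_sq]; norm_num
  rw [coe_iE, ← mul_sub, mul_pow, mul_pow, one_div, one_div, mul_inv, mul_inv, h, one_div,
    one_div]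
  ring

theorem QQ4_I (z : ℂ) : PP4.derivWeierstrassP (Complex.I * z) = Complex.I * PP4.derivWeierstrassP z := by
  simp only [PeriodPair.derivWeierstrassP]
  rw [← iE.tsum_eq, mul_neg, ← tsum_mul_left]
  congr 2 with l
  have h : (Complex.I ^ 3)⁻¹ = Complex.I := by
    rw [Complex.I_pow_three]
    simp
  rw [coe_iE, ← mul_sub, mul_pow, div_eq_mul_inv, mul_inv, h]
  ring

theorem G6 : PP4.G 6 = 0 := by
  have h1 : PP4.G 6 = -PP4.G 6 := by
    conv_lhs => rw [PeriodPair.G, ← iE.tsum_eq]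
    rw [PeriodPair.G, ← tsum_neg]
    congr with l
    have h : (Complex.I ^ 6)⁻¹ = -1 := by
      have : Complex.I ^ 6 = -1 := by
        linear_combination (Complex.I ^ 4 - Complex.I ^ 2 + 1) * Complex.I_sq
      rw [this]
      norm_num
    rw [coe_iE, mul_pow, mul_inv, h]
    ring
  have h2 : 2 * PP4.G 6 = 0 := by linear_combination h1
  simpa using h2

theorem PP4_g3 : PP4.g₃ = 0 := by rw [PeriodPair.g₃, G6, mul_zero]

theorem half_notMem : (1 / 2 : ℂ) ∉ PP4.lattice := by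
  intro h
  obtain ⟨m, n, e⟩ := mem_PP4.1 h
  have h1 := congrArg Complex.re e
  simp at h1
  have h2 : (2 * m : ℝ) = 1 := by linarith
  have h3 : 2 * m = 1 := by exact_mod_cast h2
  omega

theorem halfI_notMem : ((1 + Complex.I) / 2 : ℂ) ∉ PP4.lattice := by
  intro h
  obtain ⟨m, n, e⟩ := mem_PP4.1 h
  have h1 := congrArg Complex.re e
  simp at h1
  have h2 : (2 * m : ℝ) = 1 := by linarith
  have h3 : 2 * m = 1 := by exact_mod_cast h2
  omega

theorem QQ4_half : PP4.derivWeierstrassP (1 / 2) = 0 := by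
  have hw : (1 : ℂ) ∈ PP4.lattice := mem_PP4.2 ⟨1, 0, by simp⟩
  have e1 := PP4.derivWeierstrassP_add_coe (-(1 / 2)) ⟨1, hw⟩
  have e2 : -(1 / 2) + ((⟨1, hw⟩ : PP4.lattice) : ℂ) = 1 / 2 := by
    show -(1 / 2) + (1 : ℂ) = 1 / 2
    norm_num
  rw [e2, PP4.derivWeierstrassP_neg] at e1
  have e3 : 2 * PP4.derivWeierstrassP (1 / 2) = 0 := by linear_combination e1
  simpa using e3

theorem PP4_halfI : PP4.weierstrassP ((1 + Complex.I) / 2) = 0 := by
  have hw : (1 : ℂ) ∈ PP4.lattice := mem_PP4.2 ⟨1, 0, by simp⟩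
  have e1 := PP4.weierstrassP_sub_coe ((1 + Complex.I) / 2) ⟨1, hw⟩
  have e2 : (1 + Complex.I) / 2 - ((⟨1, hw⟩ : PP4.lattice) : ℂ) =
      Complex.I * ((1 + Complex.I) / 2) := by
    show (1 + Complex.I) / 2 - (1 : ℂ) = _
    linear_combination -Complex.I_sq / 2
  rw [e2, PP4_I] at e1
  have e3 : 2 * PP4.weierstrassP ((1 + Complex.I) / 2) = 0 := by linear_combination -e1
  simpa using e3

theorem PP4_half_ne : PP4.weierstrassP (1 / 2) ≠ 0 := by
  intro h
  have key : ∀ z : ℂ, z.im = 1 / 2 ∨ z.im = -1 / 2 → z ∉ PP4.lattice := by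
    intro z hz hm
    obtain ⟨m, n, e⟩ := mem_PP4.1 hm
    have h1 := congrArg Complex.im e
    simp at h1
    rcases hz with hz | hz
    · have h2 : (2 * n : ℝ) = 1 := by linarith
      have h3 : 2 * n = 1 := by exact_mod_cast h2
      omega
    · have h2 : (2 * n : ℝ) = -1 := by linarith
      have h3 : 2 * n = -1 := by exact_mod_cast h2
      omega
  rcases Mult.P_inj half_notMem halfI_notMem (h.trans PP4_halfI.symm) with h1 | h1
  · refine key _ (Or.inr ?_) h1
    simp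
    norm_num
  · refine key _ (Or.inl ?_) h1
    simp

theorem g2_half : PP4.g₂ = 4 * PP4.weierstrassP (1 / 2) ^ 2 := by
  have h := PP4.derivWeierstrassP_sq (1 / 2) half_notMem
  rw [QQ4_half, PP4_g3] at h
  have h1 : PP4.weierstrassP (1 / 2) * (4 * PP4.weierstrassP (1 / 2) ^ 2 - PP4.g₂) = 0 := by
    linear_combination -h
  rcases mul_eq_zero.1 h1 with h2 | h2
  · exact absurd h2 PP4_half_ne
  · linear_combination -h2

theorem exists_Om4 : ∃ w : ℂ, PP4.weierstrassP (1 / 2) = w ^ 2 ∧ w ≠ 0 := by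
  obtain ⟨w, hw⟩ := IsAlgClosed.exists_pow_nat_eq (PP4.weierstrassP (1 / 2)) (n := 2) (by norm_num)
  refine ⟨w, hw.symm, ?_⟩
  rintro rfl
  apply PP4_half_ne
  rw [← hw]
  ring

/-- The period: `℘ (1 / 2) = Om4 ^ 2`, `g₂ = 4 Om4 ^ 4`. -/
def Om4 : ℂ := exists_Om4.choose

theorem PP4_half : PP4.weierstrassP (1 / 2) = Om4 ^ 2 := exists_Om4.choose_spec.1

theorem Om4_pow : PP4.g₂ = 4 * Om4 ^ 4 := by
  rw [g2_half, PP4_half]
  ring

theorem Om4_ne : Om4 ≠ 0 := exists_Om4.choose_spec.2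

/-- The data of complex multiplication of the curve `y² = x³ - x`. -/
instance cd4 : CD where
  K := K4
  fieldK := fieldK4
  nfK := numberFieldK4
  pidK := pidK4
  emb := emb4
  ta := iO
  gen := exists_coords4
  im := im4
  tr := 0
  nm := 1
  quad := by
    rw [iO_sq]
    simp
  A := -1
  B := 0
  disc := by norm_num
  jint := by norm_num
  Om := Om4
  Om_ne := Om4_ne
  g2 := by
    rw [Om4_pow]
    push_cast
    ring
  g3 := by
    rw [PP4_g3]
    simp
  Nt := X
  Dt := C (iO ^ 2)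
  Nt_monic := monic_X
  Nt_deg := by simp
  Dt_deg := by simp
  Dt_lead := by rw [leadingCoeff_C]
  Nt_lo := ⟨0, by simp⟩
  Dt_lo := ⟨0, by simp⟩
  cop := by
    rw [map_X, map_C]
    refine isCoprime_comm.1 ⟨C (-1), 0, ?_⟩
    rw [iO_sq, ← C_mul]
    simp
  mulx := by
    intro z _ _
    show eval₂ (emb4.toRingHom.comp (algebraMap (𝓞 K4) K4)) (PP4.weierstrassP z / Om4 ^ 2) X =
      PP4.weierstrassP (emb4 (iO : K4) * z) / Om4 ^ 2 *
        eval₂ (emb4.toRingHom.comp (algebraMap (𝓞 K4) K4)) (PP4.weierstrassP z / Om4 ^ 2)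
          (C (iO ^ 2))
    have h0 : emb4 (iO : K4) * z = Complex.I * z := by rw [coe_iO, emb4_iK]
    rw [h0, PP4_I, eval₂_X, eval₂_C]
    have h : (emb4.toRingHom.comp (algebraMap (𝓞 K4) K4)) (iO ^ 2) = -1 := by
      rw [iO_sq, map_neg, map_one]
    rw [h]
    ring
  bad := 96
  bad_ne := by norm_num
  bad_dvd := by norm_num

theorem cdA_eq : (CD.A : ℤ) = -1 := rfl

theorem cdB_eq : (CD.B : ℤ) = 0 := rfl

theorem bad_eq : (CD.bad : ℤ) = 96 := rfl

theorem cA_eq (F : Type*) [Ring F] : cA F = -1 := by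
  rw [cA, cdA_eq]
  norm_num

theorem cB_eq (F : Type*) [Ring F] : cB F = 0 := by
  rw [cB, cdB_eq]
  norm_num

theorem zt_eq : zt = Complex.I := emb4_iK

theorem PP_eq : PP = PP4 := rfl

theorem Om_eq : Om = Om4 := rfl

end

end Pool.Agent.Lib.MP_1a91b9_ntQ
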