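import Pool.Agent.Lib.MP_1a91b9_nuT.Base

/-!
# Quartic twists: the complex embedding of `𝓞 K`, for a general datum `CD`
-/

set_option autoImplicit false

namespace Pool.Agent.Lib.MP_1a91b9_ntQ

open NumberField Pool.Agent.Lib.MP_1a91b9_nuT

noncomputable section

variable [CD]

/-- The embedding in `ℂ`. -/
def em (x : 𝓞 K) : ℂ := embK (x : K)

theorem em_zero : em 0 = 0 := by simp [em]

theorem em_one : em 1 = 1 := by simp [em]

theorem em_add (x y : 𝓞 K) : em (x + y) = em x + em y := by simp [em]

theorem em_sub (x y : 𝓞 K) : em (x - y) = em x - em y := by simp [em]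

theorem em_neg (x : 𝓞 K) : em (-x) = -em x := by simp [em]

theorem em_mul (x y : 𝓞 K) : em (x * y) = em x * em y := by simp [em]

theorem em_pow (x : 𝓞 K) (n : ℕ) : em (x ^ n) = em x ^ n := by simp [em]

theorem em_intCast (n : ℤ) : em (n : 𝓞 K) = n := by simp [em]

theorem em_natCast (n : ℕ) : em (n : 𝓞 K) = n := by simp [em]

theorem em_ofNat (n : ℕ) [n.AtLeastTwo] : em (OfNat.ofNat n : 𝓞 K) = OfNat.ofNat n :=
  em_natCast n

theorem em_prod {ι : Type*} (S : Finset ι) (f : ι → 𝓞 K) : em (∏ q ∈ S, f q) = ∏ q ∈ S, em (f q) := by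
  classical
  induction S using Finset.induction_on with
  | empty => simp [em_one]
  | insert a S ha ih => rw [Finset.prod_insert ha, Finset.prod_insert ha, em_mul, ih]

theorem em_sum {ι : Type*} (S : Finset ι) (f : ι → 𝓞 K) : em (∑ q ∈ S, f q) = ∑ q ∈ S, em (f q) := by
  classical
  induction S using Finset.induction_on with
  | empty => simp [em_zero]
  | insert a S ha ih => rw [Finset.sum_insert ha, Finset.sum_insert ha, em_add, ih]

theorem em_inj {x y : 𝓞 K} (h : em x = em y) : x = y := by
  apply RingOfIntegers.ext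
  exact embK.toRingHom.injective h

theorem em_ne {x : 𝓞 K} (h : x ≠ 0) : em x ≠ 0 := by
  intro h0
  rw [← em_zero] at h0
  exact h (em_inj h0)

theorem isIntegral_em (x : 𝓞 K) : IsIntegral ℤ (em x) := by
  have h : IsIntegral ℤ (x : K) := RingOfIntegers.isIntegral_coe _
  exact h.map embK.toRingHom.toIntAlgHom

end

end Pool.Agent.Lib.MP_1a91b9_ntQ
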